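import Pool.Agent.helper31.GPR.Spec

/-!
# Project GPR, row CHO (helper44)
-/

set_option autoImplicit false

namespace Pool.Agent.GPR

open Pool.Agent.helper25.QST

theorem CHO_pow (a b x : ℕ) (h : 2 ^ (a + b) ≤ 2 ^ b * x) : 2 ^ a ≤ x := by
  rw [pow_add, mul_comm] at h
  exact Nat.le_of_mul_le_mul_left h (by positivity)

theorem CHO (hSS : SS_stmt) (hNU1 : NU1_stmt) (hNU2 : NU2_stmt) (hTSP : TSP_stmt) : CHO_stmt := by
  intro V _ _ _ n l S J V1 hn hl hnl hA hS hV1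
  have hq : Module.finrank (ZMod 2) (V ⧸ V1) + Module.finrank (ZMod 2) V1 = n := by
    rw [← hn]
    exact Submodule.finrank_quotient_add_finrank V1
  set c := Module.finrank (ZMod 2) (V ⧸ V1) with hc
  have hcl : c ≤ l := by omega
  have hcard : Nat.card V1 = 2 ^ (n - c) := by
    rw [Module.natCard_eq_pow_finrank (K := ZMod 2) (V := V1)]
    have e1 : Nat.card (ZMod 2) = 2 := by simp
    have e2 : Module.finrank (ZMod 2) V1 = n - c := by omega
    rw [e1, e2]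
  let B : V → V →ₗ[ZMod 2] (V ⧸ V1) := fun z => V1.mkQ ∘ₗ J z
  have hB : ∀ z v, B z v = 0 ↔ J z v ∈ V1 := by
    intro z v
    show V1.mkQ (J z v) = 0 ↔ _
    rw [Submodule.mkQ_apply, Submodule.Quotient.mk_eq_zero]
  have hBz : ∀ z ∈ S, B z z = 0 := by
    intro z hz
    rw [hB, hA.lc.self z hz]
    exact zero_mem V1
  have hSne : S.Nonempty := by
    rw [← Set.ncard_pos (Set.toFinite S)]
    exact lt_of_lt_of_le (by positivity) hS
  obtain ⟨x0, hx0⟩ := hSne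
  have hx00 : x0 ≠ 0 := fun h => hA.lc.nz (h ▸ hx0)
  -- the first step
  obtain ⟨T1, hT1V, hT1d, -⟩ := hTSP V V1 x0 (3 * l) hx00 (by omega)
  obtain ⟨h, -, hh0, hh⟩ := hSS V V1 T1 (3 * l) c S B hT1d (by omega) hc.symm hT1V hA.sub hBz
    (by
      rw [hcard]
      calc KK (3 * l) c * 2 ^ (n - c) ≤ 2 ^ (c + 2 * l - 1) * 2 ^ (n - c) :=
            Nat.mul_le_mul_right _ (hNU1 l c hl hcl)
        _ = 2 ^ (n - l) * 2 ^ (3 * l - 1) := by
            rw [← pow_add, ← pow_add]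
            congr 1
            omega
        _ ≤ S.ncard * 2 ^ (3 * l - 1) := Nat.mul_le_mul_right _ hS) ⟨x0, hx0⟩
  have e1 : {z | z ∈ S ∧ z + h ∈ S ∧ B z h = 0} = Rh S J V1 h := by
    ext z
    show (z ∈ S ∧ z + h ∈ S ∧ B z h = 0) ↔ (z ∈ S ∧ z + h ∈ S ∧ J z h ∈ V1)
    rw [hB]
  rw [e1] at hh
  have hR : 2 ^ (n - 4 * l - 1) ≤ (Rh S J V1 h).ncard := by
    apply CHO_pow (n - 4 * l - 1) (3 * l + 1)
    have e2 : n - 4 * l - 1 + (3 * l + 1) = n - l := by omega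
    rw [e2]
    exact hS.trans hh
  have hRne : (Rh S J V1 h).Nonempty := by
    rw [← Set.ncard_pos (Set.toFinite _)]
    exact lt_of_lt_of_le (by positivity) hR
  -- the second step
  obtain ⟨T2, hT2V, hT2d, hhT⟩ := hTSP V V1 h (8 * l) hh0 (by omega)
  obtain ⟨g, hgT, hg0, hg⟩ := hSS V V1 T2 (8 * l) c (Rh S J V1 h) B hT2d (by omega) hc.symm hT2V
    (fun z hz => hA.sub z hz.1) (fun z hz => hBz z hz.1)
    (by
      rw [hcard]
      calc KK (8 * l) c * 2 ^ (n - c) ≤ 2 ^ (c + 4 * l - 2) * 2 ^ (n - c) :=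
            Nat.mul_le_mul_right _ (hNU2 l c hl hcl)
        _ = 2 ^ (n - 4 * l - 1) * 2 ^ (8 * l - 1) := by
            rw [← pow_add, ← pow_add]
            congr 1
            omega
        _ ≤ (Rh S J V1 h).ncard * 2 ^ (8 * l - 1) := Nat.mul_le_mul_right _ hR) hRne
  refine ⟨h, g, hh0, hg0, fun e => hhT (e ▸ hgT), ?_⟩
  have hsub : {z | z ∈ Rh S J V1 h ∧ z + g ∈ Rh S J V1 h ∧ B z g = 0} ⊆ Zh S J V1 h g := by
    rintro z ⟨⟨z1, z2, z3⟩, ⟨z4, z5, -⟩, z6⟩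
    refine ⟨z1, z2, z4, ?_, z3, (hB z g).1 z6⟩
    rw [add_right_comm]
    exact z5
  apply CHO_pow (n - 12 * l - 2) (8 * l + 1)
  have e2 : n - 12 * l - 2 + (8 * l + 1) = n - 4 * l - 1 := by omega
  rw [e2]
  refine (hR.trans hg).trans (Nat.mul_le_mul_left _ ?_)
  exact Set.ncard_le_ncard hsub (Set.toFinite _)

end Pool.Agent.GPR
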